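import Pool.Agent.W528.HB.Stm

set_option autoImplicit false

/-! The standard additive character. -/

namespace Pool.Agent.W271.HB.AY

theorem main : Pool.Agent.W528.HB.AY := by
  intro c _ L _ _ _
  letI := ZMod.algebra L c
  haveI : Module.Finite (ZMod c) L := Module.Finite.of_finite
  haveI : Algebra.IsAlgebraic (ZMod c) L := Algebra.IsAlgebraic.of_finite _ _
  constructor
  · haveI : NeZero ((c : ℕ) : PadicAlgCl c) := ⟨by
      exact_mod_cast (Fact.out : c.Prime).ne_zero⟩
    obtain ⟨ζ, hζ⟩ := HasEnoughRootsOfUnity.exists_primitiveRoot (PadicAlgCl c) c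
    refine ⟨(AddChar.zmodChar c hζ.pow_eq_one).compAddMonoidHom
      (Algebra.trace (ZMod c) L).toAddMonoidHom, ζ, hζ, fun y => ?_⟩
    rw [AddChar.compAddMonoidHom_apply, AddChar.zmodChar_apply]
    rfl
  · intro ψ hψ
    obtain ⟨ζ, hζ, hy⟩ := hψ
    constructor
    · apply AddChar.IsPrimitive.of_ne_one
      obtain ⟨y, hy1⟩ := Algebra.trace_surjective (ZMod c) L 1
      rw [AddChar.ne_one_iff]
      refine ⟨y, ?_⟩
      rw [hy y]
      have h1 : (Algebra.trace (ZMod c) L y).val = 1 := by
        have : Algebra.trace (ZMod c) L y = 1 := hy1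
        rw [this, ZMod.val_one]
      intro h
      have h2 : ζ ^ (Algebra.trace (ZMod c) L y).val = 1 := h
      rw [h1, pow_one] at h2
      exact hζ.ne_one (Fact.out : c.Prime).one_lt h2
    · intro y
      rw [hy, hy]
      have h1 : Algebra.trace (ZMod c) L (y ^ c) = Algebra.trace (ZMod c) L y := by
        have h2 := Algebra.trace_eq_of_algEquiv
          (FiniteField.frobeniusAlgEquivOfAlgebraic (ZMod c) L) y
        rw [FiniteField.coe_frobeniusAlgEquivOfAlgebraic] at h2
        simpa only [ZMod.card] using h2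
      have h3 : (Algebra.trace (ZMod c) L (y ^ c)).val = (Algebra.trace (ZMod c) L y).val := by
        rw [h1]
      exact congrArg (fun n => ζ ^ n) h3

end Pool.Agent.W271.HB.AY
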